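import Pool.Agent.H456Z.DistProof

set_option autoImplicit false

namespace Pool.Agent.Results.MP_0b3830_co.AWedgeCounterexample

open Pool.Agent.H456Z.Dist

/-- For every `n ≥ 2` there is a finite connected graph without a `K_{2,3,...,3}` minor
(`n` threes) and a positive edge weighting whose weighted distance matrix has more than `n`
positive eigenvalues. So the conjectured equivalence fails for every `n ≥ 2`. -/
theorem result (n : ℕ) (hn : 2 ≤ n) :
    ∃ (V : Type) (_ : Fintype V) (_ : DecidableEq V) (G : SimpleGraph V),
      G.Connected ∧ ¬ IsMinor (K23 n) G ∧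
      ∃ φ : Sym2 V → ℝ, (∀ e ∈ G.edgeSet, 0 < φ e) ∧ n < numPos (distMatrix G φ) :=
  Pool.Agent.H456Z.Dist.main n hn

end Pool.Agent.Results.MP_0b3830_co.AWedgeCounterexample
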